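import Mathlib
import Pool.Agent.H244Z.MTL.Defs
import Pool.Agent.H244Z.MTL.Pos

set_option autoImplicit false

namespace Pool.Agent.Results.MP_339e98_lc.SingleChain

open Pool.Agent.H244Z.Fuzzy

universe u

/-- MTL and IMTL are not complete with respect to a single chain (of any size), while the
cancellative extension `PiMTL` is. -/
theorem result : ¬ SCC.{u} Logic.MTL ∧ ¬ SCC.{u} Logic.IMTL ∧ SCC.{0} Logic.PiMTL :=
  ⟨not_scc_MTL, not_scc_IMTL, scc_PiMTL⟩

end Pool.Agent.Results.MP_339e98_lc.SingleChain
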